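import Pool.Agent.H69.PLD.ZBS

/-!
# Row ZBL: the sum over the small numbers
-/

set_option autoImplicit false

open Finset Polynomial Pool.Agent.H23.PL

namespace Pool.Agent.H69.PLD

private lemma geo_le {p : ℕ} (hp : p.Prime) (K : ℕ) :
    ∑ k ∈ Icc 1 K, (1 / (p : ℝ)) ^ k ≤ 1 / ((p : ℝ) - 1) := by
  have hp1 : (1 : ℝ) < p := by exact_mod_cast hp.one_lt
  have hp0 : (0 : ℝ) < p := by linarith
  have h1 : ∀ K : ℕ, ∑ k ∈ Icc 1 K, (1 / (p : ℝ)) ^ k =
      (1 - (1 / (p : ℝ)) ^ K) / ((p : ℝ) - 1) := by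
    intro K
    induction K with
    | zero => simp
    | succ K ih =>
      rw [sum_Icc_succ_top (by omega), ih, pow_succ]
      have h2 : (p : ℝ) - 1 ≠ 0 := by linarith
      field_simp
      ring
  rw [h1]
  have h3 : 0 < (p : ℝ) - 1 := by linarith
  have h4 : (0 : ℝ) ≤ (1 / (p : ℝ)) ^ K := by positivity
  exact div_le_div_of_nonneg_right (by linarith) h3.le

/-- the logarithm of a number over `B` -/
private lemma log_eq {B : Finset ℕ} {a K : ℕ} (hB : ∀ p ∈ B, p.Prime) (ha : Sm B a)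
    (hK : a ≤ K) : Real.log a =
      ∑ p ∈ B, ∑ k ∈ Icc 1 K, if p ^ k ∣ a then Real.log p else 0 := by
  rw [Real.log_nat_eq_sum_factorization]
  have h1 : a.factorization.support ⊆ B := by
    intro p hp
    have hp' : p ∈ a.primeFactors := by simpa using hp
    exact ha.2 p (Nat.prime_of_mem_primeFactors hp') (Nat.dvd_of_mem_primeFactors hp')
  rw [Finsupp.sum_of_support_subset _ h1 _ (fun _ _ => by simp)]
  refine sum_congr rfl fun p hp => ?_
  have hpp := hB p hp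
  rw [← sum_filter, sum_const, nsmul_eq_mul]
  have h2 : (Icc 1 K).filter (fun k => p ^ k ∣ a) = Icc 1 (a.factorization p) := by
    ext k
    rw [mem_filter, mem_Icc, mem_Icc, hpp.pow_dvd_iff_le_factorization ha.1]
    have h3 := Nat.factorization_lt p ha.1
    constructor
    · rintro ⟨⟨h4, -⟩, h5⟩
      exact ⟨h4, h5⟩
    · rintro ⟨h4, h5⟩
      exact ⟨⟨h4, by omega⟩, h5⟩
  rw [h2, Nat.card_Icc, Nat.add_sub_cancel]

/-- the multiples of `p ^ k` -/
private lemma mult_le (hZBS : T_ZBS) {B S : Finset ℕ} (hB : ∀ p ∈ B, p.Prime)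
    (hS : ∀ a ∈ S, Sm B a) {p : ℕ} (hp : p.Prime) (k : ℕ) :
    ∑ a ∈ S.filter (fun a => p ^ k ∣ a), 1 / (a : ℝ) ≤ (1 / (p : ℝ)) ^ k * ZB B := by
  classical
  have hpk : p ^ k ≠ 0 := (pow_pos hp.pos k).ne'
  have h1 : ∑ a ∈ S.filter (fun a => p ^ k ∣ a), 1 / (a : ℝ) =
      (1 / (p : ℝ)) ^ k * ∑ b ∈ (S.filter (fun a => p ^ k ∣ a)).image (fun a => a / p ^ k),
        1 / (b : ℝ) := by
    rw [sum_image, mul_sum]
    · refine sum_congr rfl fun a ha => ?_
      obtain ⟨c, hc⟩ := (mem_filter.1 ha).2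
      have h2 : a / p ^ k = c := by rw [hc, Nat.mul_div_cancel_left _ (Nat.pos_of_ne_zero hpk)]
      rw [h2, hc]
      push_cast
      rw [div_pow, one_pow, div_mul_div_comm, one_mul]
    · intro a ha b hb hab
      obtain ⟨c, hc⟩ := (mem_filter.1 (mem_coe.1 ha)).2
      obtain ⟨d, hd⟩ := (mem_filter.1 (mem_coe.1 hb)).2
      dsimp only at hab
      rw [hc, hd, Nat.mul_div_cancel_left _ (Nat.pos_of_ne_zero hpk),
        Nat.mul_div_cancel_left _ (Nat.pos_of_ne_zero hpk)] at hab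
      rw [hc, hd, hab]
  rw [h1]
  refine mul_le_mul_of_nonneg_left ?_ (by positivity)
  refine hZBS B _ hB fun b hb => ?_
  obtain ⟨a, ha, rfl⟩ := mem_image.1 hb
  obtain ⟨haS, hda⟩ := mem_filter.1 ha
  have h3 := hS a haS
  have h4 : a / p ^ k ∣ a := Nat.div_dvd_of_dvd hda
  exact ⟨ne_zero_of_dvd_ne_zero h3.1 h4, fun q hq hqd => h3.2 q hq (hqd.trans h4)⟩

/-- the sum of `log a / a` -/
private lemma log_sum_le (hZBS : T_ZBS) {B S : Finset ℕ} (hB : ∀ p ∈ B, p.Prime)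
    (hS : ∀ a ∈ S, Sm B a) :
    ∑ a ∈ S, Real.log a / a ≤ ZB B * ∑ p ∈ B, Real.log p / ((p : ℝ) - 1) := by
  classical
  have hZ0 : 0 ≤ ZB B := by
    have := hZBS B ∅ hB (by simp)
    simpa using this
  obtain ⟨K, hK⟩ : ∃ K : ℕ, ∀ a ∈ S, a ≤ K := ⟨S.sup id, fun a ha => le_sup (f := id) ha⟩
  have h1 : ∑ a ∈ S, Real.log a / a =
      ∑ p ∈ B, Real.log p * ∑ k ∈ Icc 1 K, ∑ a ∈ S.filter (fun a => p ^ k ∣ a),
        1 / (a : ℝ) := by
    calc ∑ a ∈ S, Real.log a / a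
        = ∑ a ∈ S, ∑ p ∈ B, ∑ k ∈ Icc 1 K,
            (if p ^ k ∣ a then Real.log p * (1 / (a : ℝ)) else 0) := by
          refine sum_congr rfl fun a ha => ?_
          rw [log_eq hB (hS a ha) (hK a ha), div_eq_mul_one_div, sum_mul]
          refine sum_congr rfl fun p _ => ?_
          rw [sum_mul]
          refine sum_congr rfl fun k _ => ?_
          split_ifs
          · rfl
          · rw [zero_mul]
      _ = ∑ p ∈ B, ∑ k ∈ Icc 1 K, ∑ a ∈ S,
            (if p ^ k ∣ a then Real.log p * (1 / (a : ℝ)) else 0) := by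
          rw [sum_comm]
          refine sum_congr rfl fun p _ => ?_
          rw [sum_comm]
      _ = _ := by
          refine sum_congr rfl fun p _ => ?_
          rw [mul_sum]
          refine sum_congr rfl fun k _ => ?_
          rw [← sum_filter, mul_sum]
  rw [h1, mul_sum]
  refine sum_le_sum fun p hp => ?_
  have hpp := hB p hp
  have hlog : 0 ≤ Real.log p := Real.log_natCast_nonneg p
  have h2 : ∑ k ∈ Icc 1 K, ∑ a ∈ S.filter (fun a => p ^ k ∣ a), 1 / (a : ℝ) ≤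
      1 / ((p : ℝ) - 1) * ZB B := by
    calc ∑ k ∈ Icc 1 K, ∑ a ∈ S.filter (fun a => p ^ k ∣ a), 1 / (a : ℝ)
        ≤ ∑ k ∈ Icc 1 K, (1 / (p : ℝ)) ^ k * ZB B :=
          sum_le_sum fun k _ => mult_le hZBS hB hS hpp k
      _ = (∑ k ∈ Icc 1 K, (1 / (p : ℝ)) ^ k) * ZB B := by rw [sum_mul]
      _ ≤ _ := mul_le_mul_of_nonneg_right (geo_le hpp K) hZ0
  calc Real.log p * ∑ k ∈ Icc 1 K, ∑ a ∈ S.filter (fun a => p ^ k ∣ a), 1 / (a : ℝ)
      ≤ Real.log p * (1 / ((p : ℝ) - 1) * ZB B) := mul_le_mul_of_nonneg_left h2 hlog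
    _ = ZB B * (Real.log p / ((p : ℝ) - 1)) := by ring

theorem pf_ZBL (hZBS : T_ZBS) : T_ZBL := by
  classical
  intro B Y hB hY
  have hL : 0 < Real.log Y := Real.log_pos hY
  have hZ0 : 0 ≤ ZB B := by
    have := hZBS B ∅ hB (by simp)
    simpa using this
  obtain ⟨T, hT⟩ : ∃ T : ℝ, T = ∑ p ∈ B, Real.log p / ((p : ℝ) - 1) := ⟨_, rfl⟩
  obtain ⟨F, hF⟩ : ∃ F : ℝ, F = ∑ a ∈ (Icc 1 ⌊Y⌋₊).filter (Sm B), 1 / (a : ℝ) := ⟨_, rfl⟩
  rw [← hT, ← hF]
  have h1 : ZB B ≤ F + ZB B * T / Real.log Y := by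
    refine hasSum_le_of_sum_le (hasSum_ZB B hB) fun s => ?_
    obtain ⟨S, hS⟩ : ∃ S : Finset ℕ, S = s.map (Function.Embedding.subtype _) := ⟨_, rfl⟩
    have hSs : ∑ i ∈ s, 1 / (((i : Nat.factoredNumbers B) : ℕ) : ℝ) =
        ∑ a ∈ S, 1 / (a : ℝ) := by
      rw [hS, sum_map]
      rfl
    have hSm : ∀ a ∈ S, Sm B a := by
      intro a ha
      rw [hS, mem_map] at ha
      obtain ⟨b, -, rfl⟩ := ha
      exact mem_fact.1 b.2
    rw [hSs, ← sum_filter_add_sum_filter_not S (fun a : ℕ => (a : ℝ) ≤ Y)]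
    refine add_le_add ?_ ?_
    · rw [hF]
      refine sum_le_sum_of_subset_of_nonneg ?_ fun a _ _ => by positivity
      intro a ha
      obtain ⟨haS, haY⟩ := mem_filter.1 ha
      have h2 := hSm a haS
      exact mem_filter.2 ⟨mem_Icc.2 ⟨Nat.one_le_iff_ne_zero.2 h2.1, Nat.le_floor haY⟩, h2⟩
    · rw [le_div_iff₀ hL, sum_mul]
      calc ∑ a ∈ S.filter (fun a : ℕ => ¬ (a : ℝ) ≤ Y), 1 / (a : ℝ) * Real.log Y
          ≤ ∑ a ∈ S.filter (fun a : ℕ => ¬ (a : ℝ) ≤ Y), Real.log a / a := by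
            refine sum_le_sum fun a ha => ?_
            have h3 : Y < a := not_le.1 (mem_filter.1 ha).2
            have h4 : Real.log Y ≤ Real.log a := Real.log_le_log (by linarith) h3.le
            rw [one_div, inv_mul_eq_div]
            exact div_le_div_of_nonneg_right h4 (Nat.cast_nonneg a)
        _ ≤ ZB B * T := by
            rw [hT]
            exact log_sum_le hZBS hB fun a ha => hSm a (mem_filter.1 ha).1
  have h5 : ZB B * (1 - T / Real.log Y) = ZB B - ZB B * T / Real.log Y := by ring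
  rw [h5]
  linarith

end Pool.Agent.H69.PLD
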