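import Pool.Agent.H23.PL.Targets

/-!
# Row ZBS: finite sums are at most the Euler product
-/

set_option autoImplicit false

open Finset Polynomial Pool.Agent.H23.PL

namespace Pool.Agent.H69.PLD

/-- the function `n ↦ 1 / n` -/
noncomputable def fi : ℕ →* ℝ where
  toFun n := ((n : ℝ))⁻¹
  map_one' := by simp
  map_mul' a b := by push_cast; rw [mul_inv]

lemma fi_apply (n : ℕ) : fi n = 1 / (n : ℝ) := (one_div _).symm

lemma fi_prime {p : ℕ} (hp : p.Prime) : ‖fi p‖ < 1 := by
  rw [fi_apply, Real.norm_of_nonneg (by positivity), div_lt_one (by exact_mod_cast hp.pos)]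
  exact_mod_cast hp.one_lt

lemma hasSum_ZB (B : Finset ℕ) (hB : ∀ p ∈ B, p.Prime) :
    HasSum (fun m : Nat.factoredNumbers B => 1 / ((m : ℕ) : ℝ)) (ZB B) := by
  have h := (EulerProduct.summable_and_hasSum_factoredNumbers_prod_filter_prime_geometric
    (f := fi) (fun {_} hp => fi_prime hp) B).2
  have h1 : B.filter (fun p => p.Prime) = B := filter_true_of_mem hB
  rw [h1] at h
  simpa [fi_apply, ZB] using h

lemma mem_fact {B : Finset ℕ} {a : ℕ} : a ∈ Nat.factoredNumbers B ↔ Sm B a := by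
  rw [Nat.mem_factoredNumbers']
  constructor
  · intro h
    exact ⟨(Nat.mem_factoredNumbers.1 (Nat.mem_factoredNumbers'.2 h)).1, h⟩
  · exact fun h => h.2

theorem pf_ZBS : T_ZBS := by
  classical
  intro B S hB hS
  have h1 : ∀ a ∈ S, a ∈ Nat.factoredNumbers B := fun a ha => mem_fact.2 (hS a ha)
  rw [← Finset.sum_subtype_of_mem (f := fun a : ℕ => 1 / (a : ℝ)) h1]
  exact sum_le_hasSum _ (fun i _ => by positivity) (hasSum_ZB B hB)

end Pool.Agent.H69.PLD
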